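import Pool.Agent.H55.GW.Targets1

/-! # Gammoids: module EXC, exchange along disjoint source-sink paths (helper88) -/

set_option autoImplicit false

namespace Pool.Agent.H88.GW

open Pool.Agent.H55.GW Pool.Agent.H55.GW.Frame

/-! ## Consecutive elements of lists -/

section lists

variable {W : Type} {D : W → W → Prop} {l : List W} {u v w x y : W}

theorem nxt_mem (h : Nxt l u v) : u ∈ l ∧ v ∈ l := by
  obtain ⟨l₁, l₂, rfl⟩ := h
  simp

theorem nxt_rel (hl : l.IsChain D) (h : Nxt l u v) : D u v := by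
  obtain ⟨l₁, l₂, rfl⟩ := h
  exact (List.isChain_cons_cons.1 (List.IsChain.right_of_append hl)).1

theorem nxt_getElem (h : Nxt l u v) : ∃ i : ℕ, l[i]? = some u ∧ l[i + 1]? = some v := by
  obtain ⟨l₁, l₂, rfl⟩ := h
  refine ⟨l₁.length, ?_, ?_⟩
  · simp
  · rw [List.getElem?_append_right (by omega)]
    simp

theorem nodup_getElem? (hn : l.Nodup) {i j : ℕ} (hi : l[i]? = some u) (hj : l[j]? = some u) :
    i = j := by
  obtain ⟨h1, h2⟩ := List.getElem?_eq_some_iff.1 hi
  obtain ⟨h3, h4⟩ := List.getElem?_eq_some_iff.1 hj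
  exact (List.Nodup.getElem_inj_iff hn).1 (h2.trans h4.symm)

theorem nxt_succ_unique (hn : l.Nodup) (h : Nxt l u v) (h' : Nxt l u w) : v = w := by
  obtain ⟨i, hi, hi'⟩ := nxt_getElem h
  obtain ⟨j, hj, hj'⟩ := nxt_getElem h'
  have := nodup_getElem? hn hi hj
  subst this
  rw [hi'] at hj'
  exact Option.some.inj hj'

theorem nxt_pred_unique (hn : l.Nodup) (h : Nxt l v u) (h' : Nxt l w u) : v = w := by
  obtain ⟨i, hi, hi'⟩ := nxt_getElem h
  obtain ⟨j, hj, hj'⟩ := nxt_getElem h'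
  have := nodup_getElem? hn hi' hj'
  have : i = j := by omega
  subst this
  rw [hi] at hj
  exact Option.some.inj hj

theorem exists_nxt (hl : l.getLast? = some y) (hu : u ∈ l) (hne : u ≠ y) : ∃ v, Nxt l u v := by
  obtain ⟨l₁, l₂, rfl⟩ := List.append_of_mem hu
  cases l₂ with
  | nil =>
    rw [List.getLast?_append_of_ne_nil _ (by simp)] at hl
    simp only [List.getLast?_singleton, Option.some.injEq] at hl
    exact absurd hl hne
  | cons v l₂ => exact ⟨v, l₁, l₂, rfl⟩

theorem exists_prv (hl : l.head? = some x) (hu : u ∈ l) (hne : u ≠ x) : ∃ v, Nxt l v u := by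
  obtain ⟨l₁, l₂, rfl⟩ := List.append_of_mem hu
  rcases List.eq_nil_or_concat l₁ with rfl | ⟨l₃, v, rfl⟩
  · simp only [List.nil_append, List.head?_cons, Option.some.injEq] at hl
    exact absurd hl hne
  · exact ⟨v, l₃, l₂, by simp⟩

end lists

/-! ## Exchange along a relation -/

variable {F : Frame} {m : ℕ → Vx}

/-- a union of disjoint source-sink paths, as a relation -/
structure Flow (F : Frame) (m : ℕ → Vx) (N : Vx → Vx → Prop) (A B : Set ℕ) : Prop where
  arc : ∀ x y, N x y → F.D m x y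
  succ : ∀ x y y', N x y → N x y' → y = y'
  pred : ∀ x x' y, N x y → N x' y → x = x'
  out : ∀ x y, N x y → (∃ z, N y z) ∨ ∃ e ∈ B, y = Sum.inl e
  inc : ∀ x y, N x y → (∃ z, N z x) ∨ ∃ e ∈ A, x = Sum.inl e
  hA : ∀ e ∈ A, e ∈ F.E ∧ e ∉ F.base m ∧ ∃ y, N (Sum.inl e) y
  hB : ∀ e ∈ B, e ∈ F.base m ∧ ∃ x, N x (Sum.inl e)

namespace Flow

variable {N : Vx → Vx → Prop} {A B : Set ℕ}

/-- the internal vertex lies on a path -/
def On (N : Vx → Vx → Prop) (v : ℕ) : Prop := ∃ y, N (Sum.inr v) y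

theorem on_of_pred (h : Flow F m N A B) {v : ℕ} {x : Vx} (hx : N x (Sum.inr v)) : On N v := by
  rcases h.out _ _ hx with h1 | ⟨e, -, h1⟩
  · exact h1
  · cases h1

theorem On.pred (h : Flow F m N A B) {v : ℕ} (hv : On N v) : ∃ x, N x (Sum.inr v) := by
  obtain ⟨y, hy⟩ := hv
  rcases h.inc _ _ hy with h1 | ⟨e, -, h1⟩
  · exact h1
  · cases h1

theorem on_P (hm : F.IsPM m) (h : Flow F m N A B) {v : ℕ} (hv : On N v) (hP : F.isP v) :
    N (m v) (Sum.inr v) := by
  obtain ⟨x, hx⟩ := On.pred h hv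
  rw [← in_P hm hP (h.arc _ _ hx)]
  exact hx

theorem on_Q (hm : F.IsPM m) (h : Flow F m N A B) {v : ℕ} (hv : On N v) (hP : ¬ F.isP v) :
    N (Sum.inr v) (m v) := by
  obtain ⟨y, hy⟩ := hv
  rw [← out_Q hm hP (h.arc _ _ hy)]
  exact hy

theorem real_out (h : Flow F m N A B) {e : ℕ} {y : Vx} (hy : N (Sum.inl e) y) :
    e ∈ A ∧ ∃ v, y = Sum.inr v ∧ F.att e v ∧ On N v := by
  have h1 := h.arc _ _ hy
  refine ⟨?_, ?_⟩
  · rcases h.inc _ _ hy with ⟨z, hz⟩ | ⟨e', he', h2⟩
    · have h3 : e ∈ F.base m := by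
        by_contra h4
        exact no_in_src h4 z (h.arc _ _ hz)
      exact absurd h1 (no_out_snk h3 y)
    · rw [Sum.inl.injEq] at h2
      rw [h2]
      exact he'
  · rcases y with e' | v
    · exact absurd h1 (by simp [D])
    · exact ⟨v, rfl, h1.1, h.on_of_pred hy⟩

theorem real_in (h : Flow F m N A B) {e : ℕ} {x : Vx} (hx : N x (Sum.inl e)) :
    e ∈ B ∧ ∃ v, x = Sum.inr v ∧ F.att e v ∧ On N v := by
  have h1 := h.arc _ _ hx
  refine ⟨?_, ?_⟩
  · rcases h.out _ _ hx with ⟨z, hz⟩ | ⟨e', he', h2⟩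
    · have h3 : e ∉ F.base m := fun h4 => no_out_snk h4 z (h.arc _ _ hz)
      exact absurd h1 (no_in_src h3 x)
    · rw [Sum.inl.injEq] at h2
      rw [h2]
      exact he'
  · rcases x with e' | v
    · exact absurd h1 (by simp [D])
    · exact ⟨v, rfl, h1.1, ⟨_, hx⟩⟩

open Classical in
/-- the new mates -/
noncomputable def mate (F : Frame) (m : ℕ → Vx) (N : Vx → Vx → Prop) (v : ℕ) : Vx :=
  if h : ∃ y, (F.isP v ∧ N (Sum.inr v) y) ∨ (¬ F.isP v ∧ N y (Sum.inr v)) then h.choose else m v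

theorem mate_P (h : Flow F m N A B) {v : ℕ} (hP : F.isP v) {y : Vx} (hy : N (Sum.inr v) y) :
    mate F m N v = y := by
  have hex : ∃ y, (F.isP v ∧ N (Sum.inr v) y) ∨ (¬ F.isP v ∧ N y (Sum.inr v)) :=
    ⟨y, Or.inl ⟨hP, hy⟩⟩
  unfold mate
  rw [dif_pos hex]
  rcases hex.choose_spec with h1 | h1
  · exact h.succ _ _ _ h1.2 hy
  · exact absurd hP h1.1

theorem mate_Q (h : Flow F m N A B) {v : ℕ} (hP : ¬ F.isP v) {x : Vx} (hx : N x (Sum.inr v)) :
    mate F m N v = x := by
  have hex : ∃ y, (F.isP v ∧ N (Sum.inr v) y) ∨ (¬ F.isP v ∧ N y (Sum.inr v)) :=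
    ⟨x, Or.inr ⟨hP, hx⟩⟩
  unfold mate
  rw [dif_pos hex]
  rcases hex.choose_spec with h1 | h1
  · exact absurd h1.1 hP
  · exact h.pred _ _ _ h1.2 hx

theorem mate_off (h : Flow F m N A B) {v : ℕ} (hv : ¬ On N v) : mate F m N v = m v := by
  unfold mate
  rw [dif_neg]
  rintro ⟨y, ⟨-, h1⟩ | ⟨-, h1⟩⟩
  · exact hv ⟨y, h1⟩
  · exact hv (h.on_of_pred h1)

theorem isPM_mate (hm : F.IsPM m) (h : Flow F m N A B) : F.IsPM (mate F m N) := by
  intro v hV
  by_cases hv : On N v
  · by_cases hP : F.isP v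
    · obtain ⟨y, hy⟩ := hv
      rw [h.mate_P hP hy]
      have h1 := h.arc _ _ hy
      constructor
      · rintro e rfl
        exact h1.1
      · rintro w rfl
        rcases h1 with ⟨h2, -⟩ | ⟨h2, -⟩
        · exact ⟨Or.inl h2, h.mate_Q (adj_notP h2) hy⟩
        · exact absurd hP (adj_notP h2)
    · obtain ⟨x, hx⟩ := On.pred h hv
      rw [h.mate_Q hP hx]
      have h1 := h.arc _ _ hx
      constructor
      · rintro e rfl
        exact h1.1
      · rintro w rfl
        rcases h1 with ⟨h2, -⟩ | ⟨h2, -⟩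
        · exact ⟨Or.inr h2, h.mate_P (adj_isP h2) hx⟩
        · exact absurd (adj_isP h2) hP
  · rw [h.mate_off hv]
    refine ⟨(hm v hV).1, fun u hu => ?_⟩
    obtain ⟨h1, h2⟩ := (hm v hV).2 u hu
    refine ⟨h1, ?_⟩
    have hnu : ¬ On N u := by
      intro hu2
      by_cases hP : F.isP u
      · have h3 := h.on_P hm hu2 hP
        rw [h2] at h3
        exact hv ⟨_, h3⟩
      · have h3 := h.on_Q hm hu2 hP
        rw [h2] at h3
        exact hv (h.on_of_pred h3)
    rw [h.mate_off hnu, h2]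

/-- description of the arcs of the flow at a real element -/
theorem att_A (h : Flow F m N A B) {e v : ℕ} (ha : F.att e v) :
    N (Sum.inl e) (Sum.inr v) ↔ e ∈ A := by
  constructor
  · exact fun h1 => (h.real_out h1).1
  · intro h1
    obtain ⟨-, -, y, hy⟩ := h.hA e h1
    obtain ⟨-, w, rfl, h2, -⟩ := h.real_out hy
    rw [F.att_uniq e v w ha h2]
    exact hy

theorem att_B (h : Flow F m N A B) {e v : ℕ} (ha : F.att e v) :
    N (Sum.inr v) (Sum.inl e) ↔ e ∈ B := by
  constructor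
  · exact fun h1 => (h.real_in h1).1
  · intro h1
    obtain ⟨-, x, hx⟩ := h.hB e h1
    obtain ⟨-, w, rfl, h2, -⟩ := h.real_in hx
    rw [F.att_uniq e v w ha h2]
    exact hx

theorem mem_base_mate (hm : F.IsPM m) (h : Flow F m N A B) (e : ℕ) :
    e ∈ F.base (mate F m N) ↔ (e ∈ F.base m ∧ e ∉ B) ∨ e ∈ A := by
  by_cases hE : e ∈ F.E
  · by_cases hatt : ∃ v, F.att e v
    · obtain ⟨v, ha⟩ := hatt
      rw [mem_base_iff ha, mem_base_iff ha, ← h.att_A ha, ← h.att_B ha]
      by_cases hv : On N v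
      · by_cases hP : F.isP v
        · have h1 := h.on_P hm hv hP
          obtain ⟨y, hy⟩ := hv
          rw [h.mate_P hP hy]
          simp only [hP, true_iff]
          constructor
          · intro h2
            by_cases h3 : m v = Sum.inl e
            · exact Or.inr (h3 ▸ h1)
            · exact Or.inl ⟨h3, fun h4 => h2 (h.succ _ _ _ hy h4)⟩
          · rintro (⟨h2, h3⟩ | h2) rfl
            · exact h3 hy
            · exact absurd (h.arc _ _ hy) (D_asymm hm (h.arc _ _ h2))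
        · have h1 := h.on_Q hm hv hP
          obtain ⟨x, hx⟩ := On.pred h hv
          rw [h.mate_Q hP hx]
          simp only [hP, false_iff, not_not]
          constructor
          · rintro rfl
            exact Or.inr hx
          · rintro (⟨h2, h3⟩ | h2)
            · exact absurd (h2 ▸ h1) h3
            · exact h.pred _ _ _ hx h2
      · rw [h.mate_off hv]
        have h1 : ¬ N (Sum.inl e) (Sum.inr v) := fun h2 => hv (h.on_of_pred h2)
        have h2 : ¬ N (Sum.inr v) (Sum.inl e) := fun h2 => hv ⟨_, h2⟩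
        tauto
    · push Not at hatt
      rw [mem_base_iff_of_free hE hatt, mem_base_iff_of_free hE hatt]
      have h1 : e ∉ A := by
        intro h1
        obtain ⟨-, -, y, hy⟩ := h.hA e h1
        obtain ⟨-, w, -, h2, -⟩ := h.real_out hy
        exact hatt w h2
      have h2 : e ∉ B := by
        intro h1
        obtain ⟨-, x, hx⟩ := h.hB e h1
        obtain ⟨-, w, -, h2, -⟩ := h.real_in hx
        exact hatt w h2
      tauto
  · constructor
    · exact fun h1 => absurd h1.1 hE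
    · rintro (h1 | h1)
      · exact absurd h1.1.1 hE
      · exact absurd (h.hA e h1).1 hE

theorem D_mate (hm : F.IsPM m) (h : Flow F m N A B) (x y : Vx) :
    F.D (mate F m N) x y ↔ (F.D m x y ∧ ¬ N x y) ∨ N y x := by
  have hAB : ∀ e, e ∈ A → e ∉ F.base m := fun e he => (h.hA e he).2.1
  have hB : ∀ e, e ∈ B → e ∈ F.base m := fun e he => (h.hB e he).1
  rcases x with e | u <;> rcases y with e' | v
  · constructor
    · intro h1
      exact absurd h1 (by simp [D])
    · rintro (⟨h1, -⟩ | h1)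
      · exact absurd h1 (by simp [D])
      · exact absurd (h.arc _ _ h1) (by simp [D])
  · by_cases ha : F.att e v
    · have h1 := h.att_A ha
      have h2 := h.att_B ha
      have h3 := h.mem_base_mate hm e
      have h4 := hAB e
      have h5 := hB e
      rw [h1, h2]
      change (F.att e v ∧ e ∉ F.base (mate F m N)) ↔
        ((F.att e v ∧ e ∉ F.base m) ∧ e ∉ A) ∨ e ∈ B
      rw [h3]
      tauto
    · constructor
      · exact fun h1 => absurd h1.1 ha
      · rintro (⟨h1, -⟩ | h1)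
        · exact absurd h1.1 ha
        · exact absurd (h.arc _ _ h1).1 ha
  · by_cases ha : F.att e' u
    · have h1 := h.att_A ha
      have h2 := h.att_B ha
      have h3 := h.mem_base_mate hm e'
      have h4 := hAB e'
      have h5 := hB e'
      rw [h1, h2]
      change (F.att e' u ∧ e' ∈ F.base (mate F m N)) ↔
        ((F.att e' u ∧ e' ∈ F.base m) ∧ e' ∉ B) ∨ e' ∈ A
      rw [h3]
      tauto
    · constructor
      · exact fun h1 => absurd h1.1 ha
      · rintro (⟨h1, -⟩ | h1)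
        · exact absurd h1.1 ha
        · exact absurd (h.arc _ _ h1).1 ha
  · change ((F.adj u v ∧ mate F m N u ≠ Sum.inr v) ∨ (F.adj v u ∧ mate F m N u = Sum.inr v)) ↔
      (((F.adj u v ∧ m u ≠ Sum.inr v) ∨ (F.adj v u ∧ m u = Sum.inr v)) ∧
        ¬ N (Sum.inr u) (Sum.inr v)) ∨ N (Sum.inr v) (Sum.inr u)
    by_cases h1 : F.adj u v
    · have hP := adj_isP h1
      have h2 : ¬ F.adj v u := fun h2 => adj_notP h1 (adj_isP h2)
      have h3 : ∀ h4 : N (Sum.inr v) (Sum.inr u), m u = Sum.inr v := fun h4 =>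
        (in_P hm hP (h.arc _ _ h4)).symm
      by_cases hu : On N u
      · have h4 := h.on_P hm hu hP
        obtain ⟨y, hy⟩ := hu
        rw [h.mate_P hP hy]
        constructor
        · rintro (⟨-, h5⟩ | ⟨h5, -⟩)
          · by_cases h6 : m u = Sum.inr v
            · exact Or.inr (h6 ▸ h4)
            · exact Or.inl ⟨Or.inl ⟨h1, h6⟩, fun h7 => h5 (h.succ _ _ _ hy h7)⟩
          · exact absurd h5 h2
        · rintro (⟨-, h5⟩ | h5)
          · refine Or.inl ⟨h1, ?_⟩
            rintro rfl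
            exact h5 hy
          · refine Or.inl ⟨h1, ?_⟩
            rintro rfl
            exact absurd (h.arc _ _ h5) (D_asymm hm (h.arc _ _ hy))
      · rw [h.mate_off hu]
        have h4 : ¬ N (Sum.inr u) (Sum.inr v) := fun h4 => hu ⟨_, h4⟩
        have h5 : ¬ N (Sum.inr v) (Sum.inr u) := fun h5 => hu (h.on_of_pred h5)
        tauto
    · by_cases h2 : F.adj v u
      · have hP := adj_notP h2
        by_cases hu : On N u
        · have h4 := h.on_Q hm hu hP
          obtain ⟨x, hx⟩ := On.pred h hu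
          rw [h.mate_Q hP hx]
          constructor
          · rintro (⟨h5, -⟩ | ⟨-, rfl⟩)
            · exact absurd h5 h1
            · exact Or.inr hx
          · rintro (⟨⟨h5, -⟩ | ⟨-, h5⟩, h6⟩ | h5)
            · exact absurd h5 h1
            · exact absurd (h5 ▸ h4) h6
            · exact Or.inr ⟨h2, h.pred _ _ _ hx h5⟩
        · rw [h.mate_off hu]
          have h4 : ¬ N (Sum.inr u) (Sum.inr v) := fun h4 => hu ⟨_, h4⟩
          have h5 : ¬ N (Sum.inr v) (Sum.inr u) := fun h5 => hu (h.on_of_pred h5)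
          tauto
      · constructor
        · rintro (⟨h5, -⟩ | ⟨h5, -⟩)
          · exact absurd h5 h1
          · exact absurd h5 h2
        · rintro (⟨⟨h5, -⟩ | ⟨h5, -⟩, -⟩ | h5)
          · exact absurd h5 h1
          · exact absurd h5 h2
          · rcases h.arc _ _ h5 with ⟨h6, -⟩ | ⟨h6, -⟩
            · exact absurd h6 h2
            · exact absurd h6 h1

end Flow

theorem exc : T_EXC := by
  intro F m hm n l a b hl hab hdis
  have hch : ∀ i, (l i).IsChain (F.D m) := fun i => (hl i).1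
  have hnd : ∀ i, (l i).Nodup := fun i => (hl i).2.1
  have hhd : ∀ i, (l i).head? = some (Sum.inl (a i)) := fun i => (hl i).2.2.1
  have hlt : ∀ i, (l i).getLast? = some (Sum.inl (b i)) := fun i => (hl i).2.2.2
  have hsame : ∀ i j x, x ∈ l i → x ∈ l j → i = j := by
    intro i j x hx hx'
    by_contra hne
    exact hdis i j hne x hx hx'
  have hne : ∀ i, a i ≠ b i := fun i he => (hab i).2.1 (he ▸ (hab i).2.2)
  have hflow : Flow F m (fun x y => ∃ i, Nxt (l i) x y) (Set.range a) (Set.range b) := by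
    refine ⟨?_, ?_, ?_, ?_, ?_, ?_, ?_⟩
    · rintro x y ⟨i, hi⟩
      exact nxt_rel (hch i) hi
    · rintro x y y' ⟨i, hi⟩ ⟨j, hj⟩
      have := hsame i j x (nxt_mem hi).1 (nxt_mem hj).1
      subst this
      exact nxt_succ_unique (hnd i) hi hj
    · rintro x x' y ⟨i, hi⟩ ⟨j, hj⟩
      have := hsame i j y (nxt_mem hi).2 (nxt_mem hj).2
      subst this
      exact nxt_pred_unique (hnd i) hi hj
    · rintro x y ⟨i, hi⟩
      by_cases h1 : y = Sum.inl (b i)
      · exact Or.inr ⟨b i, ⟨i, rfl⟩, h1⟩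
      · obtain ⟨z, hz⟩ := exists_nxt (hlt i) (nxt_mem hi).2 h1
        exact Or.inl ⟨z, i, hz⟩
    · rintro x y ⟨i, hi⟩
      by_cases h1 : x = Sum.inl (a i)
      · exact Or.inr ⟨a i, ⟨i, rfl⟩, h1⟩
      · obtain ⟨z, hz⟩ := exists_prv (hhd i) (nxt_mem hi).1 h1
        exact Or.inl ⟨z, i, hz⟩
    · rintro _ ⟨i, rfl⟩
      refine ⟨(hab i).1, (hab i).2.1, ?_⟩
      obtain ⟨z, hz⟩ := exists_nxt (hlt i) (List.mem_of_head? (hhd i))
        (fun h => hne i (Sum.inl.inj h))
      exact ⟨z, i, hz⟩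
    · rintro _ ⟨i, rfl⟩
      refine ⟨(hab i).2.2, ?_⟩
      obtain ⟨z, hz⟩ := exists_prv (hhd i) (List.mem_of_getLast? (hlt i))
        (fun h => hne i (Sum.inl.inj h).symm)
      exact ⟨z, i, hz⟩
  refine ⟨Flow.mate F m _, hflow.isPM_mate hm, ?_, hflow.D_mate hm⟩
  ext e
  rw [hflow.mem_base_mate hm e]
  simp only [Set.mem_union, Set.mem_sdiff]

end Pool.Agent.H88.GW
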