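import Pool.Agent.H55.GW.Targets1

/-! # Gammoids: module LB, base exchange means linkage (helper88) -/

set_option autoImplicit false

namespace Pool.Agent.H88.GW

open Pool.Agent.H55.GW Pool.Agent.H55.GW.Frame

theorem range_eq_of_inj {n : ℕ} {X : Set ℕ} (hX : X.Finite) (hn : X.ncard = n) {a : Fin n → ℕ}
    (ha : Function.Injective a) (hmem : ∀ i, a i ∈ X) : Set.range a = X := by
  refine Set.eq_of_subset_of_ncard_le ?_ ?_ hX
  · rintro _ ⟨i, rfl⟩
    exact hmem i
  · rw [← Set.image_univ, Set.ncard_image_of_injective _ ha, Set.ncard_univ,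
      Nat.card_eq_fintype_card, Fintype.card_fin, hn]

theorem lb (h1 : T_EXC) (h2 : T_LBC) : T_LB := by
  intro F m hm X Y hX hY hXY
  have hXf : X.Finite := F.E.finite_toSet.subset fun e he => (hX he).1
  have hYf : Y.Finite := F.E.finite_toSet.subset fun e he => base_subset (hY he)
  constructor
  · rintro ⟨m', hm', hb⟩
    obtain ⟨n, h3, -, h5⟩ := h2 F m m' hm hm'
    have e1 : F.base m' \ F.base m = X := by
      rw [hb]
      ext e
      constructor
      · rintro ⟨h6 | h6, h7⟩
        · exact absurd h6.1 h7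
        · exact h6
      · exact fun h6 => ⟨Or.inr h6, (hX h6).2⟩
    have e2 : F.base m \ F.base m' = Y := by
      rw [hb]
      ext e
      constructor
      · rintro ⟨h6, h7⟩
        by_contra h8
        exact h7 (Or.inl ⟨h6, h8⟩)
      · intro h6
        refine ⟨hY h6, ?_⟩
        rintro (h7 | h7)
        · exact h7.2 h6
        · exact (hX h7).2 (hY h6)
    rw [e1] at h3 h5
    rw [e2] at h5
    rw [h3]
    exact h5
  · rintro ⟨x, y, S, h3, h4⟩
    choose a ha ha' using fun i => (h3 i).1
    choose b hb hb' using fun i => (h3 i).2.1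
    choose l hl hl' using fun i => (h3 i).2.2.exists_path
    obtain ⟨hxi, hyi⟩ := lnk_inj (fun i => (h3 i).2.2) h4
    have hai : Function.Injective a := fun i j hij => hxi (by rw [← ha' i, ← ha' j, hij])
    have hbi : Function.Injective b := fun i j hij => hyi (by rw [← hb' i, ← hb' j, hij])
    obtain ⟨m', hm', hbase, -⟩ := h1 F m hm X.ncard l a b
      (fun i => by rw [ha' i, hb' i]; exact hl i)
      (fun i => ⟨by simpa using (hX (ha i)).1, (hX (ha i)).2, hY (hb i)⟩)
      (fun i j hij z hz hz' => Set.disjoint_left.1 (h4 i j hij) (hl' i z hz) (hl' j z hz'))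
    refine ⟨m', hm', ?_⟩
    rw [hbase, range_eq_of_inj hXf rfl hai ha, range_eq_of_inj hYf hXY.symm hbi hb]

end Pool.Agent.H88.GW
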