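import Pool.Agent.H55.GW.Targets1

/-! # Gammoids: module LBC, two perfect matchings give a linkage (helper88) -/

set_option autoImplicit false

namespace Pool.Agent.H88.GW

open Pool.Agent.H55.GW Pool.Agent.H55.GW.Frame

section abs

variable {W : Type} {N : W → W → Prop} {U A B : Set W}

/-- sources of a relation with unique predecessors do not reach a common point -/
theorem src_unique (hpred : ∀ x x' y, N x y → N x' y → x = x')
    (hA : ∀ x y, y ∈ A → ¬ N x y) {a a' y : W} (ha : a ∈ A) (ha' : a' ∈ A)
    (h : Relation.ReflTransGen N a y) (h' : Relation.ReflTransGen N a' y) : a = a' := by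
  induction h with
  | refl =>
    rcases Relation.ReflTransGen.cases_tail h' with h1 | ⟨z, -, h2⟩
    · exact h1
    · exact absurd h2 (hA _ _ ha)
  | @tail b c hab hbc ih =>
    rcases Relation.ReflTransGen.cases_tail h' with h1 | ⟨z, h1, h2⟩
    · subst h1
      exact absurd hbc (hA _ _ ha')
    · have : b = z := hpred _ _ _ hbc h2
      subst this
      exact ih h1

/-- starting from a source one reaches a sink -/
theorem reach_end (hU : U.Finite) (hNU : ∀ x y, N x y → x ∈ U ∧ y ∈ U)
    (hpred : ∀ x x' y, N x y → N x' y → x = x')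
    (hA : ∀ x y, y ∈ A → ¬ N x y) (hA2 : ∀ x ∈ A, ∃ y, N x y)
    (hend : ∀ x y, N x y → (∃ z, N y z) ∨ y ∈ B) {a : W} (ha : a ∈ A) :
    ∃ b ∈ B, Relation.ReflTransGen N a b := by
  classical
  by_contra hcon
  push Not at hcon
  -- every point reached has a successor
  have hsucc : ∀ y, Relation.ReflTransGen N a y → ∃ z, N y z := by
    intro y hy
    rcases Relation.ReflTransGen.cases_tail hy with h1 | ⟨z, -, h2⟩
    · rw [h1]
      exact hA2 a ha
    · rcases hend _ _ h2 with h3 | h3
      · exact h3
      · exact absurd hy (hcon y h3)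
  let R : Set W := {y | Relation.ReflTransGen N a y}
  have hRfin : R.Finite := by
    refine (hU.insert a).subset ?_
    intro y hy
    rcases Relation.ReflTransGen.cases_tail hy with h1 | ⟨z, -, h2⟩
    · exact Or.inl h1
    · exact Or.inr (hNU _ _ h2).2
  choose! g hg using hsucc
  have hmaps : Set.MapsTo g R R := fun y hy => Relation.ReflTransGen.tail hy (hg y hy)
  have hinj : Set.InjOn g R := fun y hy y' hy' he =>
    hpred _ _ _ (hg y hy) (he ▸ hg y' hy')
  have hsurj : Set.SurjOn g R R := by
    have := (Set.Finite.injOn_iff_bijOn_of_mapsTo hRfin hmaps).1 hinj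
    exact this.surjOn
  obtain ⟨y, hy, hya⟩ := hsurj (show a ∈ R from Relation.ReflTransGen.refl)
  exact hA _ _ ha (hya ▸ hg y hy)

end abs

variable {F : Frame} {m m' : ℕ → Vx}

/-- the arcs on which the two directed graphs differ -/
def Diff (F : Frame) (m m' : ℕ → Vx) (x y : Vx) : Prop := F.D m x y ∧ F.D m' y x

theorem diff_pred (hm : F.IsPM m) (hm' : F.IsPM m') {x x' y : Vx} (h : Diff F m m' x y)
    (h' : Diff F m m' x' y) : x = x' := by
  rcases y with e | v
  · rcases x with e1 | u
    · exact absurd h.1 (by simp [D])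
    · rcases x' with e2 | u'
      · exact absurd h'.1 (by simp [D])
      · have h1 : F.att e u := h.1.1
        have h2 : F.att e u' := h'.1.1
        rw [F.att_uniq e u u' h1 h2]
  · by_cases hv : F.isP v
    · rw [in_P hm hv h.1, in_P hm hv h'.1]
    · rw [out_Q hm' hv h.2, out_Q hm' hv h'.2]

theorem diff_succ (hm : F.IsPM m) (hm' : F.IsPM m') {x : Vx} {v : ℕ}
    (h : Diff F m m' x (Sum.inr v)) : ∃ z, Diff F m m' (Sum.inr v) z := by
  have hV : v ∈ F.V := by
    rcases (D_uni h.1).2 with ⟨w, hw, he⟩ | ⟨e, -, he⟩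
    · rw [Sum.inr.injEq] at he
      rw [he]
      exact hw
    · cases he
  by_cases hv : F.isP v
  · have hx : x = m v := in_P hm hv h.1
    subst hx
    have h1 : F.D m' (m' v) (Sum.inr v) := D_mate_P hm' hV hv
    refine ⟨m' v, ?_, h1⟩
    rcases G_D hm (G_symm (D_G h1)) with h2 | h2
    · exact h2
    · have h3 : m' v = m v := in_P hm hv h2
      rw [h3] at h1
      exact absurd h.2 (D_asymm hm' h1)
  · have hx : x = m' v := out_Q hm' hv h.2
    subst hx
    have h1 : F.D m (Sum.inr v) (m v) := D_mate_Q hm hV hv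
    refine ⟨m v, h1, ?_⟩
    rcases G_D hm' (G_symm (D_G h1)) with h2 | h2
    · exact h2
    · have h3 : m v = m' v := out_Q hm' hv h2
      rw [h3] at h1
      exact absurd h.1 (D_asymm hm h1)

theorem diff_src {e : ℕ} (he : e ∈ F.base m' \ F.base m) :
    ∃ z, Diff F m m' (Sum.inl e) z := by
  by_cases ha : ∃ v, F.att e v
  · obtain ⟨v, hv⟩ := ha
    exact ⟨Sum.inr v, ⟨hv, he.2⟩, ⟨hv, he.1⟩⟩
  · push Not at ha
    have hE : e ∈ F.E := by simpa using base_subset he.1
    exact absurd ((mem_base_iff_of_free (m := m) hE ha).2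
      ((mem_base_iff_of_free (m := m') hE ha).1 he.1)) he.2

theorem half (hm : F.IsPM m) (hm' : F.IsPM m') :
    Lnk (F.D m) (F.base m' \ F.base m).ncard (Sum.inl '' (F.base m' \ F.base m))
      (Sum.inl '' (F.base m \ F.base m')) := by
  classical
  set A : Set ℕ := F.base m' \ F.base m with hA
  have hfin : A.Finite := (F.E.finite_toSet.subset fun e he => base_subset he.1)
  have key : ∀ e ∈ A, ∃ b ∈ (Sum.inl '' (F.base m \ F.base m') : Set Vx),
      Relation.ReflTransGen (Diff F m m') (Sum.inl e) b := by
    intro e he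
    refine reach_end (U := F.uni) (A := Sum.inl '' A) F.uni_finite ?_ ?_ ?_ ?_ ?_
      ⟨e, he, rfl⟩
    · exact fun x y h => D_uni h.1
    · exact fun x x' y h h' => diff_pred hm hm' h h'
    · rintro x y ⟨e', he', rfl⟩ h
      exact no_in_src he'.2 x h.1
    · rintro x ⟨e', he', rfl⟩
      exact diff_src he'
    · rintro x (e' | v) h
      · refine Or.inr ⟨e', ⟨?_, ?_⟩, rfl⟩
        · by_contra h1
          exact no_in_src h1 x h.1
        · intro h1
          exact no_out_snk h1 x h.2
      · exact Or.inl (diff_succ hm hm' h)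
  have hcard : Fintype.card (Fin A.ncard) = A.ncard := Fintype.card_fin _
  have : Fintype A := hfin.fintype
  have hc : Fintype.card A = A.ncard := by
    rw [← Set.toFinset_card, Set.ncard_eq_toFinset_card']
  let eq : Fin A.ncard ≃ A := (Fintype.equivFinOfCardEq hc).symm
  choose f hf hf' using fun i : Fin A.ncard => key (eq i).1 (eq i).2
  refine ⟨fun i => Sum.inl (eq i).1, f,
    fun i => {y | Relation.ReflTransGen (Diff F m m') (Sum.inl (eq i).1) y}, ?_, ?_⟩
  · intro i
    refine ⟨⟨_, (eq i).2, rfl⟩, hf i, ?_⟩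
    have : ∀ y, Relation.ReflTransGen (Diff F m m') (Sum.inl (eq i).1) y →
        RIn (F.D m) {y | Relation.ReflTransGen (Diff F m m') (Sum.inl (eq i).1) y}
          (Sum.inl (eq i).1) y := by
      intro y hy
      induction hy with
      | refl => exact RIn.refl Relation.ReflTransGen.refl
      | @tail b c hb hbc ih => exact ih.tail hbc.1 (hb.tail hbc)
    exact this _ (hf' i)
  · intro i j hij
    rw [Set.disjoint_left]
    intro y hy hy'
    have h1 : (Sum.inl (eq i).1 : Vx) = Sum.inl (eq j).1 := by
      refine src_unique (N := Diff F m m') (A := Sum.inl '' A) ?_ ?_ ⟨_, (eq i).2, rfl⟩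
        ⟨_, (eq j).2, rfl⟩ hy hy'
      · exact fun x x' y h h' => diff_pred hm hm' h h'
      · rintro x y ⟨e', he', rfl⟩ h
        exact no_in_src he'.2 x h.1
    exact hij (eq.injective (Subtype.ext (Sum.inl.inj h1)))

/-- the number of walks is at most the number of ends -/
theorem half_card (hm : F.IsPM m) (hm' : F.IsPM m') :
    (F.base m' \ F.base m).ncard ≤ (F.base m \ F.base m').ncard := by
  classical
  obtain ⟨x, y, S, h1, h2⟩ := half hm hm'
  have hinj := (lnk_inj (fun i => (h1 i).2.2) h2).2
  have hfin : (F.base m \ F.base m').Finite :=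
    (F.E.finite_toSet.subset fun e he => base_subset he.1)
  choose g hg hg' using fun i => (h1 i).2.1
  have hginj : Function.Injective g := fun i j hij => hinj (by rw [← hg' i, ← hg' j, hij])
  calc (F.base m' \ F.base m).ncard
      = (Set.range g).ncard := by
        rw [← Set.image_univ, Set.ncard_image_of_injective _ hginj, Set.ncard_univ,
          Nat.card_eq_fintype_card, Fintype.card_fin]
    _ ≤ (F.base m \ F.base m').ncard := by
        refine Set.ncard_le_ncard ?_ hfin
        rintro _ ⟨i, rfl⟩
        exact hg i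

theorem lbc : T_LBC := by
  intro F m m' hm hm'
  refine ⟨(F.base m' \ F.base m).ncard, rfl, ?_, half hm hm'⟩
  exact le_antisymm (half_card hm' hm) (half_card hm hm')

end Pool.Agent.H88.GW
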